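import Pool.Agent.Zk72.NS.Adv2

/-!
# The exploration paths stay in a ball
-/

set_option autoImplicit false

namespace Pool.Agent.Zk36.NF

open H974 Finset H342P H984P H984N H12S H389NS Pool.Agent.Zk36.TT Pool.Agent.W92.DP
open Pool.Agent.Zk72.NS

theorem norm_pos_le {δ a b h : ℝ} (hδ : 0 ≤ δ) (σ : St) (h1 : -a ≤ δ * σ.1.1) (h2 : δ * σ.1.1 ≤ b)
    (h3 : 0 ≤ δ * σ.1.2) (h4 : δ * σ.1.2 ≤ h) (ha : 0 ≤ a) (hb : 0 ≤ b) :
    ‖pos δ σ‖ ≤ a + b + h + 3 * δ := by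
  have key : ∀ s t : ℝ, |s| ≤ 1/4 → |t| ≤ 1/4 →
      ‖(⟨δ * (σ.1.1 + s), δ * (σ.1.2 + 1 + t)⟩ : ℂ)‖ ≤ a + b + h + 3 * δ := by
    intro s t hs ht
    rw [abs_le] at hs ht
    refine (Complex.norm_le_abs_re_add_abs_im _).trans ?_
    have e1 : |δ * ((σ.1.1 : ℝ) + s)| ≤ a + b + δ := by
      rw [abs_le, mul_add]
      constructor <;> nlinarith
    have e2 : |δ * ((σ.1.2 : ℝ) + 1 + t)| ≤ h + 2 * δ := by
      rw [abs_le, mul_add, mul_add]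
      constructor <;> nlinarith
    show |δ * ((σ.1.1 : ℝ) + s)| + |δ * ((σ.1.2 : ℝ) + 1 + t)| ≤ _
    linarith
  obtain ⟨v, q⟩ := σ
  cases q
  · exact key (1/4) (1/4) (by norm_num) (by norm_num)
  · have := key (-(1/4)) (1/4) (by norm_num) (by norm_num)
    exact this
  · have := key (-(1/4)) (-(1/4)) (by norm_num) (by norm_num)
    exact this
  · have := key (1/4) (-(1/4)) (by norm_num) (by norm_num)
    exact this

theorem ball (R : Rect) : ∃ M δ0 : ℝ, 0 < δ0 ∧ ∀ δ : ℝ, 0 < δ → δ ≤ δ0 →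
    ∀ F ⊆ (R.dm δ).edges, Set.range (R.curve δ F) ⊆ Metric.closedBall (0 : ℂ) M := by
  obtain ⟨κ, S, δ0, hκ, hS, hδ0, hδ01, hsh⟩ := R.shape
  refine ⟨R.A + R.B + R.H + 4, δ0, hδ0, ?_⟩
  intro δ hδ hle F hF
  have hD : (R.dm δ).Ok := (hsh δ hδ hle).ok
  rintro _ ⟨t, rfl⟩
  rw [mem_closedBall_zero_iff]
  have hstep : ∀ k < (R.dm δ).len F,
      dist (pos δ ((R.dm δ).walk F k)) (pos δ ((R.dm δ).walk F (k + 1))) ≤ δ / 2 := by
    intro k _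
    rw [H984N.walk_succ]
    exact pos_nxt hδ.le _ _
  obtain ⟨k, hk, e1⟩ := pl_close (by linarith : 0 ≤ δ / 2) hstep t
  have hin := walk_in hD hF k
  unfold inR at hin
  have i1 : (R.dm δ).l ≤ ((R.dm δ).walk F k).1.1 := by omega
  have i2 : ((R.dm δ).walk F k).1.1 ≤ (R.dm δ).r := by omega
  have i3 : 0 ≤ ((R.dm δ).walk F k).1.2 := by omega
  have i4 : ((R.dm δ).walk F k).1.2 ≤ (R.dm δ).h := by omega
  have hA := R.hA
  have hB := R.hB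
  have a1 : (((R.dm δ).l : ℤ) : ℝ) ≤ ((R.dm δ).walk F k).1.1 := by exact_mod_cast i1
  have a2 : ((((R.dm δ).walk F k).1.1 : ℤ) : ℝ) ≤ (R.dm δ).r := by exact_mod_cast i2
  have a3 : (0:ℝ) ≤ ((R.dm δ).walk F k).1.2 := by exact_mod_cast i3
  have a4 : ((((R.dm δ).walk F k).1.2 : ℤ) : ℝ) ≤ (R.dm δ).h := by exact_mod_cast i4
  have b1 : -(R.A / δ) ≤ (((R.dm δ).l : ℤ) : ℝ) := by
    show -(R.A / δ) ≤ ((⌊-(R.A / δ)⌋ + 1 : ℤ) : ℝ)
    push_cast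
    exact (Int.lt_floor_add_one _).le
  have b2 : (((R.dm δ).r : ℤ) : ℝ) ≤ R.B / δ := by
    show ((⌈R.B / δ⌉ - 1 : ℤ) : ℝ) ≤ R.B / δ
    push_cast
    have := Int.ceil_lt_add_one (R.B / δ)
    linarith
  have b4 : (((R.dm δ).h : ℤ) : ℝ) ≤ R.H / δ := by
    show ((⌈R.H / δ⌉ - 2 : ℤ) : ℝ) ≤ R.H / δ
    push_cast
    have := Int.ceil_lt_add_one (R.H / δ)
    linarith
  have c1 : -R.A ≤ δ * ((R.dm δ).walk F k).1.1 := by
    have := mul_le_mul_of_nonneg_left (b1.trans a1) hδ.le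
    rwa [mul_neg, mul_div_cancel₀ _ hδ.ne'] at this
  have c2 : δ * ((R.dm δ).walk F k).1.1 ≤ R.B := by
    have := mul_le_mul_of_nonneg_left (a2.trans b2) hδ.le
    rwa [mul_div_cancel₀ _ hδ.ne'] at this
  have c4 : δ * ((R.dm δ).walk F k).1.2 ≤ R.H := by
    have := mul_le_mul_of_nonneg_left (a4.trans b4) hδ.le
    rwa [mul_div_cancel₀ _ hδ.ne'] at this
  have h5 := norm_pos_le hδ.le ((R.dm δ).walk F k) c1 c2 (mul_nonneg hδ.le a3) c4 hA.le hB.le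
  have h6 : ‖R.curve δ F t‖ ≤ ‖pos δ ((R.dm δ).walk F k)‖ + δ / 2 := by
    have h7 : R.curve δ F t = pos δ ((R.dm δ).walk F k) + (R.curve δ F t -
      pos δ ((R.dm δ).walk F k)) := by ring
    rw [h7]
    refine (norm_add_le _ _).trans ?_
    have h8 : ‖R.curve δ F t - pos δ ((R.dm δ).walk F k)‖ ≤ δ / 2 := by
      rw [← dist_eq_norm]
      exact e1
    linarith
  linarith

end Pool.Agent.Zk36.NF
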