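import Pool.Agent.Zk72.NF.FDefs
import Pool.Agent.Zk36.NF.BALL0

set_option autoImplicit false

namespace Pool.Agent.Zk36.NF

open Pool.Agent.Zk72.NF

theorem t_BALL : S_BALL := fun R => ball R

end Pool.Agent.Zk36.NF
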