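import Pool.Agent.Zk36.CO.Main

/-!
# The near-critical family: its members far from criticality are near the arcs
-/

set_option autoImplicit false

namespace Pool.Agent.Zk36.NF

open H974 Finset H342P H984P H984N H342L Filter Topology MeasureTheory
open Pool.Agent.Zk36.CO

section General

variable {X : Type*} [PseudoMetricSpace X]

/-- the test function: `0` up to distance `ρ / 2` from `a`, `1` from distance `ρ` on -/
noncomputable def tst (a : X) (ρ : ℝ) : BoundedContinuousFunction X ℝ :=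
  BoundedContinuousFunction.ofNormedAddCommGroup
    (fun x => min 1 (max 0 ((dist x a - ρ / 2) / (ρ / 2)))) (by fun_prop) 1 (by
      intro x
      rw [Real.norm_eq_abs, abs_le]
      constructor
      · have : (0:ℝ) ≤ min 1 (max 0 ((dist x a - ρ / 2) / (ρ / 2))) :=
          le_min zero_le_one (le_max_left _ _)
        linarith
      · exact min_le_left _ _)

theorem tst_apply (a : X) (ρ : ℝ) (x : X) :
    tst a ρ x = min 1 (max 0 ((dist x a - ρ / 2) / (ρ / 2))) := rfl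

theorem tst_nonneg (a : X) (ρ : ℝ) (x : X) : 0 ≤ tst a ρ x :=
  le_min zero_le_one (le_max_left _ _)

theorem tst_le (a : X) {ρ : ℝ} (hρ : 0 < ρ) (x : X) : tst a ρ x ≤ ind (ρ / 2 < dist x a) := by
  by_cases h : ρ / 2 < dist x a
  · rw [ind_of h]
    exact min_le_left _ _
  · rw [ind_not_of h, tst_apply]
    refine (min_le_right _ _).trans (max_le le_rfl ?_)
    exact div_nonpos_of_nonpos_of_nonneg (by linarith) (by linarith)

theorem le_tst (a : X) {ρ : ℝ} (hρ : 0 < ρ) {x : X} (h : ρ < dist x a) : tst a ρ x = 1 := by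
  rw [tst_apply]
  apply min_eq_left
  refine le_max_of_le_right ?_
  rw [le_div_iff₀ (by linarith)]
  linarith

variable [MeasurableSpace X] [BorelSpace X]

theorem real_le (P : ProbabilityMeasure X) (a : X) {ρ : ℝ} (hρ : 0 < ρ) :
    (P : Measure X).real {x | ρ < dist x a} ≤ ∫ x, tst a ρ x ∂(P : Measure X) := by
  have hm : MeasurableSet {x | ρ < dist x a} :=
    (isOpen_lt continuous_const (continuous_id.dist continuous_const)).measurableSet
  rw [← integral_indicator_one hm]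
  refine integral_mono ?_ ?_ ?_
  · exact (integrable_const (1:ℝ)).indicator hm
  · exact BoundedContinuousFunction.integrable _ _
  · intro x
    by_cases h : ρ < dist x a
    · rw [Set.indicator_of_mem (by exact h), le_tst a hρ h]
      exact le_rfl
    · rw [Set.indicator_of_notMem (by exact h)]
      exact tst_nonneg a ρ x

end General

theorem exp_id {δ lam : ℝ} (hδ : 0 < δ) (hl : 0 ≤ lam) :
    (lam * δ ^ (3/4 : ℝ)) ^ (4/3 : ℝ) / δ = lam ^ (4/3 : ℝ) := by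
  rw [Real.mul_rpow hl (by positivity), ← Real.rpow_mul hδ.le]
  norm_num
  field_simp

theorem small {δ : ℕ → ℝ} (hδ : ∀ n, 0 < δ n) (hδ0 : Tendsto δ atTop (𝓝 0)) (lam : ℝ) :
    Tendsto (fun n => lam * δ n ^ (3/4 : ℝ)) atTop (𝓝 0) := by
  have h1 : Tendsto (fun n => δ n ^ (3/4 : ℝ)) atTop (𝓝 0) := by
    have := hδ0.rpow_const (p := (3/4 : ℝ)) (Or.inr (by norm_num))
    rwa [Real.zero_rpow (by norm_num)] at this
  have := h1.const_mul lam
  rwa [mul_zero] at this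

/-- limits of laws with conditional probabilities at least `1/2 + lam δ ^ (3/4)` -/
theorem tail_up (R : Rect) : ∃ C c : ℝ, 0 < C ∧ 0 < c ∧ ∀ δ : ℕ → ℝ, (∀ n, 0 < δ n) →
    Tendsto δ atTop (𝓝 0) → ∀ lam : ℝ, 0 ≤ lam → ∀ w : ℕ → Finset Edg → ℝ,
    (∀ᶠ n in atTop, (∀ F ⊆ (R.dm (δ n)).edges, 0 ≤ w n F) ∧
      ∑ F ∈ (R.dm (δ n)).edges.powerset, w n F = 1 ∧
      ∀ e ∈ (R.dm (δ n)).edges, ∀ F ⊆ (R.dm (δ n)).edges, e ∉ F →
        (1/2 + lam * δ n ^ (3/4 : ℝ)) * (w n (insert e F) + w n F) ≤ w n (insert e F)) →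
    ∀ P : ProbabilityMeasure Curve,
    (∀ f : BoundedContinuousFunction Curve ℝ,
      Tendsto (fun n => ∑ F ∈ (R.dm (δ n)).edges.powerset, w n F * f ⟨R.curve (δ n) F⟩) atTop
        (𝓝 (∫ x, f x ∂(P : Measure Curve)))) →
    ∀ ρ : ℝ, 0 < ρ → ρ ≤ 1 → (P : Measure Curve).real {x | ρ < dist x ⟨arcR R⟩} ≤
      C / ρ ^ 2 * Real.exp (-(c * (ρ * lam ^ (4/3 : ℝ)))) := by
  obtain ⟨C, c, δ₀, hC, hc, hδ₀, h⟩ := up R
  refine ⟨4 * C, c / 2, by positivity, by positivity, ?_⟩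
  intro δ hδ hδ0 lam hl w hw P hP ρ hρ hρ1
  refine (real_le P _ hρ).trans ?_
  refine le_of_tendsto (hP (tst ⟨arcR R⟩ ρ)) ?_
  have h1 : ∀ᶠ n in atTop, δ n ≤ δ₀ := (hδ0.eventually_lt_const hδ₀).mono fun n h => h.le
  have h2 : ∀ᶠ n in atTop, lam * δ n ^ (3/4 : ℝ) ≤ 1/2 :=
    ((small hδ hδ0 lam).eventually_lt_const (by norm_num : (0:ℝ) < 1/2)).mono fun n h => h.le
  filter_upwards [hw, h1, h2] with n hwn h1n h2n
  obtain ⟨w1, w2, w3⟩ := hwn
  have h3 := h (δ n) (hδ n) h1n (lam * δ n ^ (3/4 : ℝ)) (mul_nonneg hl (by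
    have := hδ n
    positivity)) h2n (w n) w1 w2 w3 (ρ / 2) (by linarith) (by linarith)
  rw [exp_id (hδ n) hl] at h3
  refine le_trans ?_ (h3.trans (le_of_eq ?_))
  · refine Finset.sum_le_sum fun F hF => mul_le_mul_of_nonneg_left ?_
      (w1 F (Finset.mem_powerset.1 hF))
    exact tst_le _ hρ _
  · rw [show c * (ρ / 2 * lam ^ (4/3 : ℝ)) = c / 2 * (ρ * lam ^ (4/3 : ℝ)) by ring]
    congr 1
    field_simp
    ring

/-- limits of laws with conditional probabilities at most `1/2 - lam δ ^ (3/4)` -/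
theorem tail_down (R : Rect) : ∃ C c : ℝ, 0 < C ∧ 0 < c ∧ ∀ δ : ℕ → ℝ, (∀ n, 0 < δ n) →
    Tendsto δ atTop (𝓝 0) → ∀ lam : ℝ, 0 ≤ lam → ∀ w : ℕ → Finset Edg → ℝ,
    (∀ᶠ n in atTop, (∀ F ⊆ (R.dm (δ n)).edges, 0 ≤ w n F) ∧
      ∑ F ∈ (R.dm (δ n)).edges.powerset, w n F = 1 ∧
      ∀ e ∈ (R.dm (δ n)).edges, ∀ F ⊆ (R.dm (δ n)).edges, e ∉ F →
        w n (insert e F) ≤ (1/2 - lam * δ n ^ (3/4 : ℝ)) * (w n (insert e F) + w n F)) →
    ∀ P : ProbabilityMeasure Curve,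
    (∀ f : BoundedContinuousFunction Curve ℝ,
      Tendsto (fun n => ∑ F ∈ (R.dm (δ n)).edges.powerset, w n F * f ⟨R.curve (δ n) F⟩) atTop
        (𝓝 (∫ x, f x ∂(P : Measure Curve)))) →
    ∀ ρ : ℝ, 0 < ρ → ρ ≤ 1 → (P : Measure Curve).real {x | ρ < dist x ⟨arcL R⟩} ≤
      C / ρ ^ 2 * Real.exp (-(c * (ρ * lam ^ (4/3 : ℝ)))) := by
  obtain ⟨C, c, δ₀, hC, hc, hδ₀, h⟩ := down R
  refine ⟨4 * C, c / 2, by positivity, by positivity, ?_⟩
  intro δ hδ hδ0 lam hl w hw P hP ρ hρ hρ1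
  refine (real_le P _ hρ).trans ?_
  refine le_of_tendsto (hP (tst ⟨arcL R⟩ ρ)) ?_
  have h1 : ∀ᶠ n in atTop, δ n ≤ δ₀ := (hδ0.eventually_lt_const hδ₀).mono fun n h => h.le
  have h2 : ∀ᶠ n in atTop, lam * δ n ^ (3/4 : ℝ) ≤ 1/2 :=
    ((small hδ hδ0 lam).eventually_lt_const (by norm_num : (0:ℝ) < 1/2)).mono fun n h => h.le
  filter_upwards [hw, h1, h2] with n hwn h1n h2n
  obtain ⟨w1, w2, w3⟩ := hwn
  have h3 := h (δ n) (hδ n) h1n (lam * δ n ^ (3/4 : ℝ)) (mul_nonneg hl (by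
    have := hδ n
    positivity)) h2n (w n) w1 w2 w3 (ρ / 2) (by linarith) (by linarith)
  rw [exp_id (hδ n) hl] at h3
  refine le_trans ?_ (h3.trans (le_of_eq ?_))
  · refine Finset.sum_le_sum fun F hF => mul_le_mul_of_nonneg_left ?_
      (w1 F (Finset.mem_powerset.1 hF))
    exact tst_le _ hρ _
  · rw [show c * (ρ / 2 * lam ^ (4/3 : ℝ)) = c / 2 * (ρ * lam ^ (4/3 : ℝ)) by ring]
    congr 1
    field_simp
    ring

end Pool.Agent.Zk36.NF
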