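import Pool.Agent.Zk72.NF.FDefs
import Pool.Agent.Zk36.NF.TL

/-!
# The near-critical family of traces: its members far from criticality are near the arcs
-/

set_option autoImplicit false

namespace Pool.Agent.Zk36.NF

open H974 Finset H342P H984P H984N H342L Filter Topology MeasureTheory TopologicalSpace
open Pool.Agent.Zk36.CO Pool.Agent.Zk72.NF
open Pool.Agent.Zk60.NW (trace)

/-- the trace of a curve -/
noncomputable def tr (γ : C(unitInterval, ℂ)) : NonemptyCompacts ℂ :=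
  ⟨⟨Set.range γ, isCompact_range γ.continuous⟩, Set.range_nonempty _⟩

theorem hb (γ γ' : C(unitInterval, ℂ)) : dist (tr γ) (tr γ') ≤ cdist γ γ' := by
  rw [cdist_eq]
  refine le_ciInf fun φ => ?_
  have h1 : dist (tr γ) (tr γ') = Metric.hausdorffDist (Set.range γ) (Set.range γ') := rfl
  rw [h1]
  refine Metric.hausdorffDist_le_of_mem_dist dist_nonneg ?_ ?_
  · rintro _ ⟨t, rfl⟩
    refine ⟨γ' (φ t), ⟨φ t, rfl⟩, ?_⟩
    have := ContinuousMap.dist_apply_le_dist (f := γ) (g := rep γ' φ) t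
    rwa [rep_apply] at this
  · rintro _ ⟨s, rfl⟩
    refine ⟨γ (φ.symm s), ⟨φ.symm s, rfl⟩, ?_⟩
    have := ContinuousMap.dist_apply_le_dist (f := γ) (g := rep γ' φ) (φ.symm s)
    rw [rep_apply, OrderIso.apply_symm_apply] at this
    rwa [dist_comm]

theorem ind0_cond {S : Finset Edg} {p : ℝ} (h0 : 0 ≤ p) (h1 : p ≤ 1) :
    (∀ F ⊆ S, 0 ≤ ind0 S (fun _ => p) F) ∧ ∑ F ∈ S.powerset, ind0 S (fun _ => p) F = 1 ∧
      ∀ e ∈ S, ∀ F ⊆ S, e ∉ F → ind0 S (fun _ => p) (insert e F) =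
        p * (ind0 S (fun _ => p) (insert e F) + ind0 S (fun _ => p) F) := by
  refine ⟨fun F _ => mul_nonneg (Finset.prod_nonneg fun _ _ => h0)
    (Finset.prod_nonneg fun _ _ => by linarith), ?_, ?_⟩
  · have h2 := Ex_const (p := fun _ : Edg => p) S 1
    unfold Ex at h2
    simp only [mul_one] at h2
    exact h2
  · intro e he F hF heF
    have e1 : S \ F = insert e (S \ insert e F) := by
      ext x
      simp only [Finset.mem_sdiff, Finset.mem_insert]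
      constructor
      · rintro ⟨a, b⟩
        by_cases hx : x = e
        · exact Or.inl hx
        · exact Or.inr ⟨a, fun h => h.elim hx b⟩
      · rintro (rfl | ⟨a, b⟩)
        · exact ⟨he, heF⟩
        · exact ⟨a, fun h => b (Or.inr h)⟩
    have e2 : ind0 S (fun _ => p) F =
        (1 - p) * ((∏ _e ∈ F, p) * ∏ _e ∈ S \ insert e F, (1 - p)) := by
      unfold ind0
      rw [e1, Finset.prod_insert (by simp)]
      ring
    have e3 : ind0 S (fun _ => p) (insert e F) =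
        p * ((∏ _e ∈ F, p) * ∏ _e ∈ S \ insert e F, (1 - p)) := by
      unfold ind0
      rw [Finset.prod_insert heF]
      ring
    rw [e2, e3]
    ring

theorem p_mem {δ : ℕ → ℝ} (hδ : ∀ n, 0 < δ n) (hδ0 : Tendsto δ atTop (𝓝 0)) (a : ℝ) :
    ∀ᶠ n in atTop, |a * δ n ^ (3/4 : ℝ)| ≤ 1/2 := by
  have h := (small hδ hδ0 a).abs
  rw [abs_zero] at h
  exact (h.eventually_lt_const (by norm_num : (0:ℝ) < 1/2)).mono fun n h => h.le

/-- limits of the traces above criticality -/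
theorem far_up (R : Rect) : ∃ C c : ℝ, 0 < C ∧ 0 < c ∧ ∀ δ : ℕ → ℝ, (∀ n, 0 < δ n) →
    Tendsto δ atTop (𝓝 0) → ∀ a : ℝ, 0 ≤ a → ∀ P : ProbabilityMeasure (NonemptyCompacts ℂ),
    (∀ f : BoundedContinuousFunction (NonemptyCompacts ℂ) ℝ,
      Tendsto (fun n => tmean R (δ n) a f) atTop
        (𝓝 (∫ x, f x ∂(P : Measure (NonemptyCompacts ℂ))))) →
    ∀ ρ : ℝ, 0 < ρ → ρ ≤ 1 → (P : Measure (NonemptyCompacts ℂ)).real {K | ρ < dist K (tr (arcR R))} ≤
      C / ρ ^ 2 * Real.exp (-(c * (ρ * a ^ (4/3 : ℝ)))) := by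
  obtain ⟨C, c, δ₀, hC, hc, hδ₀, h⟩ := up R
  refine ⟨4 * C, c / 2, by positivity, by positivity, ?_⟩
  intro δ hδ hδ0 a ha P hP ρ hρ hρ1
  refine (real_le P _ hρ).trans ?_
  refine le_of_tendsto (hP (tst (tr (arcR R)) ρ)) ?_
  have h1 : ∀ᶠ n in atTop, δ n ≤ δ₀ := (hδ0.eventually_lt_const hδ₀).mono fun n h => h.le
  filter_upwards [h1, p_mem hδ hδ0 a] with n h1n h2n
  rw [abs_le] at h2n
  have h0n : 0 ≤ a * δ n ^ (3/4 : ℝ) := mul_nonneg ha (by
    have := hδ n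
    positivity)
  obtain ⟨w1, w2, w3⟩ := ind0_cond (S := (R.dm (δ n)).edges) (p := 1/2 + a * δ n ^ (3/4 : ℝ))
    (by linarith) (by linarith [h2n.2])
  have h3 := h (δ n) (hδ n) h1n (a * δ n ^ (3/4 : ℝ)) h0n h2n.2
    (ind0 (R.dm (δ n)).edges (fun _ => 1/2 + a * δ n ^ (3/4 : ℝ))) w1 w2
    (fun e he F hF heF => (w3 e he F hF heF).ge) (ρ / 2) (by linarith) (by linarith)
  rw [exp_id (hδ n) ha] at h3
  refine le_trans ?_ (h3.trans (le_of_eq ?_))
  · refine Finset.sum_le_sum fun F hF => mul_le_mul_of_nonneg_left ?_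
      (w1 F (Finset.mem_powerset.1 hF))
    refine (tst_le _ hρ _).trans (ind_mono fun hlt => hlt.trans_le ?_)
    exact hb (R.curve (δ n) F) (arcR R)
  · rw [show c * (ρ / 2 * a ^ (4/3 : ℝ)) = c / 2 * (ρ * a ^ (4/3 : ℝ)) by ring]
    congr 1
    field_simp
    ring

/-- limits of the traces below criticality -/
theorem far_down (R : Rect) : ∃ C c : ℝ, 0 < C ∧ 0 < c ∧ ∀ δ : ℕ → ℝ, (∀ n, 0 < δ n) →
    Tendsto δ atTop (𝓝 0) → ∀ a : ℝ, 0 ≤ a → ∀ P : ProbabilityMeasure (NonemptyCompacts ℂ),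
    (∀ f : BoundedContinuousFunction (NonemptyCompacts ℂ) ℝ,
      Tendsto (fun n => tmean R (δ n) (-a) f) atTop
        (𝓝 (∫ x, f x ∂(P : Measure (NonemptyCompacts ℂ))))) →
    ∀ ρ : ℝ, 0 < ρ → ρ ≤ 1 → (P : Measure (NonemptyCompacts ℂ)).real {K | ρ < dist K (tr (arcL R))} ≤
      C / ρ ^ 2 * Real.exp (-(c * (ρ * a ^ (4/3 : ℝ)))) := by
  obtain ⟨C, c, δ₀, hC, hc, hδ₀, h⟩ := down R
  refine ⟨4 * C, c / 2, by positivity, by positivity, ?_⟩
  intro δ hδ hδ0 a ha P hP ρ hρ hρ1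
  refine (real_le P _ hρ).trans ?_
  refine le_of_tendsto (hP (tst (tr (arcL R)) ρ)) ?_
  have h1 : ∀ᶠ n in atTop, δ n ≤ δ₀ := (hδ0.eventually_lt_const hδ₀).mono fun n h => h.le
  filter_upwards [h1, p_mem hδ hδ0 a] with n h1n h2n
  rw [abs_le] at h2n
  have h0n : 0 ≤ a * δ n ^ (3/4 : ℝ) := mul_nonneg ha (by
    have := hδ n
    positivity)
  have hneg : (1:ℝ)/2 + -a * δ n ^ (3/4 : ℝ) = 1/2 - a * δ n ^ (3/4 : ℝ) := by ring
  obtain ⟨w1, w2, w3⟩ := ind0_cond (S := (R.dm (δ n)).edges) (p := 1/2 + -a * δ n ^ (3/4 : ℝ))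
    (by rw [hneg]; linarith [h2n.2]) (by rw [hneg]; linarith)
  have h3 := h (δ n) (hδ n) h1n (a * δ n ^ (3/4 : ℝ)) h0n h2n.2
    (ind0 (R.dm (δ n)).edges (fun _ => 1/2 + -a * δ n ^ (3/4 : ℝ))) w1 w2
    (fun e he F hF heF => by rw [← hneg]; exact (w3 e he F hF heF).le) (ρ / 2) (by linarith)
    (by linarith)
  rw [exp_id (hδ n) ha] at h3
  refine le_trans ?_ (h3.trans (le_of_eq ?_))
  · refine Finset.sum_le_sum fun F hF => mul_le_mul_of_nonneg_left ?_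
      (w1 F (Finset.mem_powerset.1 hF))
    refine (tst_le _ hρ _).trans (ind_mono fun hlt => hlt.trans_le ?_)
    exact hb (R.curve (δ n) F) (arcL R)
  · rw [show c * (ρ / 2 * a ^ (4/3 : ℝ)) = c / 2 * (ρ * a ^ (4/3 : ℝ)) by ring]
    congr 1
    field_simp
    ring

end Pool.Agent.Zk36.NF
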